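import Pool.Agent.H37.CTO.Stmts
import Pool.Agent.H2.CND.CNG

/-!
# Row P57 of the board `cto`: the second conductor of `SL_n(q)`, `n ≥ 3`
-/

set_option autoImplicit false

namespace Pool.CND

open Finset

/-- the last column is additive -/
theorem p57_mul {F : Type} [Field F] (s : ℕ) (m n : Matrix (Fin (s + 3)) (Fin (s + 3)) F)
    (hm : ∀ i j, j ≠ Fin.last (s + 2) → i ≠ 0 → m i j = if i = j then 1 else 0)
    (hn : n (Fin.last (s + 2)) (Fin.last (s + 2)) = 1) (i : Fin (s + 3)) (hi : i ≠ 0)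
    (hil : i ≠ Fin.last (s + 2)) :
    (m * n) i (Fin.last (s + 2)) = m i (Fin.last (s + 2)) + n i (Fin.last (s + 2)) := by
  rw [Matrix.mul_apply, ← Finset.add_sum_erase _ _ (Finset.mem_univ (Fin.last (s + 2))), hn, mul_one]
  congr 1
  rw [Finset.sum_eq_single i]
  · rw [hm i i hil hi, if_pos rfl, one_mul]
  · intro j hj hji
    rw [hm i j (Finset.ne_of_mem_erase hj) hi, if_neg (Ne.symm hji), zero_mul]
  · intro h
    exact absurd (Finset.mem_erase.2 ⟨hil, Finset.mem_univ i⟩) h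

theorem p57_mi0 (s : ℕ) (l : Fin (s + 1)) : mi s l ≠ 0 := by
  intro h
  have h1 := congrArg Fin.val h
  simp [mi] at h1

theorem p57_mil (s : ℕ) (l : Fin (s + 1)) : mi s l ≠ Fin.last (s + 2) := by
  intro h
  have h1 := congrArg Fin.val h
  have h2 := l.isLt
  simp [mi] at h1
  omega

theorem p57_cases (s : ℕ) (i : Fin (s + 3)) (h0 : i ≠ 0) (hl : i ≠ Fin.last (s + 2)) :
    ∃ l : Fin (s + 1), i = mi s l := by
  have h1 : i.val ≠ 0 := fun h => h0 (Fin.ext h)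
  have h2 : i.val ≠ s + 2 := fun h => hl (Fin.ext h)
  have h3 := i.isLt
  refine ⟨⟨i.val - 1, by omega⟩, Fin.ext ?_⟩
  show i.val = i.val - 1 + 1
  omega

theorem p57_val (Q ν M τ cW cI : ℚ) (hQ : Q ≠ 0) (hQ1 : Q - 1 ≠ 0) (hM : M ≠ 0) (hτ : τ ≠ 0)
    (hW : cW = Q * M) (hI : cI = cW * ((Q - 1) * τ)) :
    (M * ((Q * (ν - 1) + 2) * τ) + (cW - M) * τ) / cI = (Q * ν + 1) / (Q * (Q - 1)) := by
  rw [hI, hW]
  field_simp
  ring

theorem p57_thm (hSUB : S_SUB) (hP41 : S_P41) (hP42 : S_P42) (hP53 : S_P53) (hP54 : S_P54)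
    (hP5D : S_P5D) (hP5E : S_P5E) (hP5H : S_P5H) (hP55 : S_P55) (hP56 : S_P56) (hLC1 : S_LC1)
    (hP33 : S_P33) (hP34 : S_P34) : S_P57 := by
  intro p k F _ _ _ _ f q s hp hp2 hcp hf hq hF
  obtain ⟨L, _, _, t, X, G₀, ρ, P, hR, hC, hO⟩ := hP41 p k F f q s hp hp2 hcp hf hq hF
  have hp3 : 3 ≤ p := by
    have := hp.two_le
    omega
  have hq3 : 3 ≤ q := by
    rw [hq]
    calc 3 ≤ p := hp3
      _ = p ^ 1 := (pow_one p).symm
      _ ≤ p ^ f := Nat.pow_le_pow_right (by omega) hf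
  have hfin : Finite F := Nat.finite_of_card_ne_zero (by rw [hF]; omega)
  letI : Fintype F := Fintype.ofFinite F
  have hfinS : Finite (Matrix.SpecialLinearGroup (Fin (s + 3)) F) := Subtype.finite
  letI : Fintype G₀ := Fintype.ofFinite G₀
  have hUni := hP42 p k F L f q s t X G₀ ρ P hp hp2 hcp hf hq hF hR hC hO
  obtain ⟨Y, hYd⟩ : ∃ Y : Fin (s + 1) → L, ∀ l, Y l = X (mi s l) ^ q - X 0 ^ (q - 1) * X (mi s l) :=
    ⟨fun l => X (mi s l) ^ q - X 0 ^ (q - 1) * X (mi s l), fun _ => rfl⟩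
  obtain ⟨Yt, hYt⟩ : ∃ Yt : L, Yt = X (Fin.last (s + 2)) ^ q -
      X 0 ^ (q - 1) * X (Fin.last (s + 2)) := ⟨_, rfl⟩
  obtain ⟨Yp, hYp⟩ : ∃ Yp : L, Yp = ∏ c : Fin (s + 1) → F, (Yt + ∑ l, cst k F L (c l) * Y l) :=
    ⟨_, rfl⟩
  have hPY : PY k F L q s X Y Yt Yp := ⟨hYd, hYt, hYp⟩
  obtain ⟨hX0, hY0, -, r, hr0, hr1, hr2, hr3, -, -⟩ :=
    hP53 p k F L f q s t X Y Yt Yp hp hp2 hcp hf hq hF hR hPY
  obtain ⟨-, -, -, -, -, θ, hθ0, hθQ, hθi, hθ⟩ :=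
    hP54 p k F L f q s t X Y Yt Yp P hp hp2 hcp hf hq hF hR hO hPY
  obtain ⟨-, -, -, ζ, hζ, hGeYp⟩ :=
    hP5D p k F L f q s t X Y Yt Yp P r hp hp2 hcp hf hq hF hR hO hPY hr0 hr1 hr2 hr3
  obtain ⟨h, hh⟩ : ∃ h : L, h = algebraMap k L ζ * t / Y 0 := ⟨_, rfl⟩
  obtain ⟨z, hz⟩ : ∃ z : L, z = Yt / Y 0 - h := ⟨_, rfl⟩
  obtain ⟨hh0, hoh, hGeh, hGez, α, hα, hGeα⟩ :=
    hP5E p k F L f q s t X Y Yt Yp h z ζ P hp hp2 hcp hf hq hF hR hO hPY hζ hGeYp hh hz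
  obtain ⟨hfix, Z, β, hβ, hZact, hZGe⟩ :=
    hP5H p k F L f q s t X G₀ ρ Y Yt Yp h ζ θ P hp hp2 hcp hf hq hF hR hC hO hPY hUni hθ0 hθQ hθi
      hθ hζ hh hh0 hoh hGeh
  obtain ⟨W, I, hW, hI, hWI, -⟩ := hSUB k L G₀ P ρ
  have hWm : ∀ g : G₀, g ∈ W ↔ g ∈ ram P ρ 1 := by
    intro g
    rw [← hW]
    rfl
  have hWu := fun (g : G₀) (hg : g ∈ W) => hUni g ((hWm g).1 hg)
  have hWll : ∀ g ∈ W, g.1.1 (Fin.last (s + 2)) (Fin.last (s + 2)) = 1 := by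
    intro g hg
    rw [(hWu g hg).2.2, if_pos rfl]
  have hmul : ∀ g ∈ W, ∀ h ∈ W, ∀ l, (g * h).1.1 (mi s l) (Fin.last (s + 2)) =
      g.1.1 (mi s l) (Fin.last (s + 2)) + h.1.1 (mi s l) (Fin.last (s + 2)) :=
    fun g hg h hh l => p57_mul s g.1.1 h.1.1 (hWu g hg).2.1 (hWll h hh) _ (p57_mi0 s l)
      (p57_mil s l)
  have hone : ∀ l, (1 : G₀).1.1 (mi s l) (Fin.last (s + 2)) = 0 := by
    intro l
    show (1 : Matrix (Fin (s + 3)) (Fin (s + 3)) F) (mi s l) (Fin.last (s + 2)) = 0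
    exact Matrix.one_apply_ne (p57_mil s l)
  have hinv : ∀ g ∈ W, ∀ l, (g⁻¹).1.1 (mi s l) (Fin.last (s + 2)) =
      -g.1.1 (mi s l) (Fin.last (s + 2)) := by
    intro g hg l
    have h1 := hmul g hg g⁻¹ (W.inv_mem hg) l
    rw [mul_inv_cancel, hone] at h1
    exact (neg_eq_of_add_eq_zero_right h1.symm).symm
  obtain ⟨M, hM⟩ : ∃ M : Subgroup G₀, ∀ g, g ∈ M ↔ g ∈ W ∧
      ∀ l, g.1.1 (mi s l) (Fin.last (s + 2)) = 0 := by
    refine ⟨{ carrier := {g | g ∈ W ∧ ∀ l, g.1.1 (mi s l) (Fin.last (s + 2)) = 0}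
              mul_mem' := ?_
              one_mem' := ⟨W.one_mem, hone⟩
              inv_mem' := ?_ }, fun g => Iff.rfl⟩
    · rintro a b ⟨ha, ha'⟩ ⟨hb, hb'⟩
      refine ⟨W.mul_mem ha hb, fun l => ?_⟩
      rw [hmul a ha b hb, ha', hb', add_zero]
    · rintro a ⟨ha, ha'⟩
      refine ⟨W.inv_mem ha, fun l => ?_⟩
      rw [hinv a ha, ha', neg_zero]
  have hfixh : ∀ w : G₀, w ∈ ram P ρ 1 → ρ w h = h := fun w hw => (hfix w hw).1
  obtain ⟨τ, hτ1, hpτ, hcW, hcI, hoz, hcos⟩ :=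
    hP55 p k F L f q s t X G₀ ρ h z Z β P I W M hp hp2 hcp hf hq hF hC hO.neg hUni hh0 hoh hGez
      hfixh hβ hZact hZGe hI hW hM
  obtain ⟨hcM, hsurj, l, hlst, hU⟩ :=
    hP56 p k F L f q s t X G₀ ρ Y Yt Yp h z θ α P W M τ hp hp2 hcp hf hq hF hC hO.neg hX0 (hY0 0)
      hPY hUni hθi hθ hh0 hoh hz hGez hα hGeα hfixh hW hM hτ1 hpτ hoz
  have hMW : M ≤ W := fun g hg => ((hM g).1 hg).1
  have hnor : ∀ g ∈ W, ∀ m ∈ M, g * m * g⁻¹ ∈ M := by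
    intro g hg m hm
    obtain ⟨hm1, hm2⟩ := (hM m).1 hm
    refine (hM _).2 ⟨W.mul_mem (W.mul_mem hg hm1) (W.inv_mem hg), fun l => ?_⟩
    rw [hmul _ (W.mul_mem hg hm1) _ (W.inv_mem hg), hmul g hg m hm1, hinv g hg, hm2]
    ring
  have hQ3 : 3 ≤ q ^ (s + 1) := hq3.trans (Nat.le_self_pow (by omega) q)
  obtain ⟨ν, hν⟩ : ∃ ν : ℕ, nu q s = ν + 1 := by
    refine ⟨nu q s - 1, ?_⟩
    have h1 : 1 ≤ nu q s := by
      unfold nu
      omega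
    omega
  have hν' : nu q s - 1 = ν := by omega
  rw [hν'] at hU
  have hcond := hLC1 p k L G₀ P ρ I W M ((q ^ (s + 1) * ν + 2) * τ) τ l hp hcp hC.cov.inj hI hW
    hMW hnor hcos (by
      have h1 : 2 * τ ≤ (q ^ (s + 1) * ν + 2) * τ := Nat.mul_le_mul_right τ (by omega)
      omega) hlst hU
  -- the value of the conductor
  have hval : ((Nat.card M : ℚ) * ((q ^ (s + 1) * ν + 2) * τ : ℕ) +
      ((Nat.card W : ℚ) - Nat.card M) * τ) / Nat.card I =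
      ((q : ℚ) ^ (s + 1) * nu q s + 1) / ((q : ℚ) ^ (s + 1) * ((q : ℚ) ^ (s + 1) - 1)) := by
    have hq1 : ((q ^ (s + 1) - 1 : ℕ) : ℚ) = (q : ℚ) ^ (s + 1) - 1 := by
      rw [Nat.cast_sub (by omega), Nat.cast_one, Nat.cast_pow]
    have hQ0 : (q : ℚ) ^ (s + 1) ≠ 0 := pow_ne_zero _ (Nat.cast_ne_zero.2 (by omega))
    have hQ10 : (q : ℚ) ^ (s + 1) - 1 ≠ 0 := by
      rw [← hq1]
      exact Nat.cast_ne_zero.2 (by omega)
    have hτ0 : (τ : ℚ) ≠ 0 := Nat.cast_ne_zero.2 (by omega)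
    have hM0 : ((Nat.card M : ℕ) : ℚ) ≠ 0 := by
      rw [hcM]
      exact Nat.cast_ne_zero.2 (pow_ne_zero _ (by omega))
    have hνq : ((nu q s : ℕ) : ℚ) = (ν : ℚ) + 1 := by
      rw [hν]
      push_cast
      ring
    have hWq : ((Nat.card W : ℕ) : ℚ) = (q : ℚ) ^ (s + 1) * (Nat.card M : ℚ) := by
      rw [hcW]
      push_cast
      ring
    have hIq : ((Nat.card I : ℕ) : ℚ) = (Nat.card W : ℚ) * (((q : ℚ) ^ (s + 1) - 1) * τ) := by
      rw [hcI, Nat.cast_mul, Nat.cast_mul, hq1]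
    rw [← p57_val ((q : ℚ) ^ (s + 1)) (nu q s) (Nat.card M) τ (Nat.card W) (Nat.card I) hQ0 hQ10
      hM0 hτ0 hWq hIq, hνq]
    push_cast
    ring
  rw [hval] at hcond
  -- the group is all of `SL_n(F)`
  have htr : ∀ g : Matrix.SpecialLinearGroup (Fin (s + 2 + 1)) F,
      (∀ i j, i ≠ 0 → g.1 i j = if i = j then 1 else 0) → g.1 0 0 = 1 → g ∈ G₀ := by
    intro g hg h00
    obtain ⟨g', hg', h0⟩ := hsurj fun i => g.1 0 (Fin.succ i)
    obtain ⟨hgW, hgl⟩ := (hM g').1 hg'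
    have hu := hWu g' hgW
    have heq : g'.1.1 = g.1 := by
      ext i j
      by_cases hi : i = 0
      · subst hi
        by_cases hj : j = 0
        · subst hj
          exact hu.1.trans h00.symm
        · obtain ⟨j', rfl⟩ := Fin.exists_succ_eq_of_ne_zero hj
          exact h0 j'
      · rw [hg i j hi]
        by_cases hj : j = Fin.last (s + 2)
        · subst hj
          by_cases hil : i = Fin.last (s + 2)
          · subst hil
            exact hu.2.2 _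
          · obtain ⟨l, rfl⟩ := p57_cases s i hi hil
            rw [if_neg hil]
            exact hgl l
        · exact hu.2.1 i j hj hi
    have heq' : g'.1 = g := Subtype.ext heq
    rw [← heq']
    exact g'.2
  have hirr := hP33 p k F L f q s t X G₀ ρ P hp hp2 hcp hf hq hF hR hC hO
  have htop : G₀ = ⊤ := hP34 F (s + 2) G₀ hirr htr
  have hex : ((q : ℚ) ^ (s + 1) * nu q s + 1) / ((q : ℚ) ^ (s + 1) * ((q : ℚ) ^ (s + 1) - 1)) ∈
      Cond k G₀ := ⟨L, _, _, ρ, t, hC.cov, P, hO.neg, hcond⟩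
  clear hcond hU hlst hsurj hfixh hcos hM hnor hMW hinv hone hmul hWll hWu hWm
  subst htop
  exact cond_mono k _ _ Subgroup.topEquiv hex

end Pool.CND
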